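import Mathlib
import Pool.Agent.Helper66.QR.Block
import Pool.Agent.Helper66.QR.CellOfBlock
import Pool.Agent.Helper66.QR.HalfOfCell
import Pool.Agent.Helper66.QR.BallOfHalf
import Pool.Agent.Helper66.OWN.FatouBall

/-!
# Bounded quasiregular maps of the ball of `ℝ³`: no Fatou theorem

There is a bounded quasiregular map of the unit ball of `ℝ³` which has no radial limit at the points of
a set of positive surface measure on the unit sphere.  The map is locally Lipschitz, so that its
Sobolev derivative is its Frechet derivative, and the surface measure is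
`MeasureTheory.Measure.toSphere` of the Lebesgue measure.
-/

set_option autoImplicit false

open MeasureTheory Filter Topology Metric

namespace Pool.Agent.Results.MP_14ccba_an.PositiveSurfaceMeasure

/-- Euclidean three-space -/
abbrev R3 : Type := EuclideanSpace ℝ (Fin 3)

/-- The Frechet derivative of `f` is the weak derivative of `f` in the open unit ball, and it is
locally in `L³`. -/
def SobolevDeriv (f : R3 → R3) : Prop :=
  (∀ A : Set R3, IsCompact A → A ⊆ ball 0 1 → IntegrableOn (fun x => ‖fderiv ℝ f x‖ ^ 3) A) ∧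
  ∀ φ : R3 → ℝ, ContDiff ℝ 1 φ → HasCompactSupport φ → tsupport φ ⊆ ball 0 1 →
    ∀ v : R3, ∫ x, (fderiv ℝ φ x v) • f x = - ∫ x, φ x • (fderiv ℝ f x v)

/-- `f` is continuous in the open unit ball, its Frechet derivative is its Sobolev derivative there,
and `|Df|³ ≤ K det Df` almost everywhere in the ball. -/
def Quasiregular (K : ℝ) (f : R3 → R3) : Prop :=
  ContinuousOn f (ball 0 1) ∧ SobolevDeriv f ∧
  ∀ᵐ x : R3, x ∈ ball 0 1 → ‖fderiv ℝ f x‖ ^ 3 ≤ K * (fderiv ℝ f x).det

/-- `f` has a radial limit at the point `ξ` of the unit sphere -/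
def HasRadialLimit (f : R3 → R3) (ξ : sphere (0 : R3) 1) : Prop :=
  ∃ L : R3, Tendsto (fun r : ℝ => f (r • (ξ : R3))) (𝓝[<] 1) (𝓝 L)

/-- A quasiregular map `f` of the open unit ball of `ℝ³` into itself, locally Lipschitz and
differentiable almost everywhere, such that the set of the points of the unit sphere at which `f` has
no radial limit has positive surface measure. -/
theorem result :
    ∃ (K : ℝ) (f : R3 → R3), 1 ≤ K ∧ Quasiregular K f ∧ (∀ x ∈ ball (0 : R3) 1, ‖f x‖ < 1) ∧
      LocallyLipschitzOn (ball 0 1) f ∧ (∀ᵐ x : R3, x ∈ ball 0 1 → DifferentiableAt ℝ f x) ∧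
      0 < (volume : Measure R3).toSphere {ξ | ¬ HasRadialLimit f ξ} := by
  obtain ⟨Q⟩ := Pool.Agent.Helper66.QR.exists_consts
  have hcell := Pool.Agent.Helper66.QR.cell_of_block Q.K 2000 Q.hK (by norm_num)
    (Pool.Agent.Helper66.QR.block Q)
  obtain ⟨ρ₁, hρ₁, hhalf⟩ := Pool.Agent.Helper66.QR.half_of_cell Q.K 2000 (1 / 10000) (1 - 1 / 200000) (1 / 4)
    Q.hK (by norm_num) (by norm_num) (by norm_num) (by norm_num) (by norm_num) (by norm_num) (by norm_num) hcell
  obtain ⟨f, K, hK, h1, h2, h3, h4, h5, h6⟩ := Pool.Agent.Helper66.OWN.own_of_ball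
    (Pool.Agent.Helper66.QR.ball_of_half Q.K ρ₁ Q.hK hρ₁ hhalf)
  refine ⟨K, f, hK, ⟨h1.continuousOn, ⟨h4, h5⟩, ?_⟩, h2, h1, ?_, h6⟩
  · filter_upwards [h3] with x hx hxb using (hx hxb).2
  · filter_upwards [h3] with x hx hxb using (hx hxb).1

end Pool.Agent.Results.MP_14ccba_an.PositiveSurfaceMeasure
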